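import Pool.Agent.Helper61.NW.Goals
import Pool.Agent.Helper77.NW.STL
import Pool.Agent.Helper7.NW.SHIFT
import Pool.Agent.Helper4.NW.W

/-! Project NW (MP_266b34_co), packet CRX: cylinders with crossings. -/

set_option autoImplicit false

namespace Pool.Agent.Helper24.NW

open Pool.Agent.Helper52.Wq2 Pool.Agent.Helper61.NW Pool.Agent.Helper77.NW

universe u

section

variable {Γ : Type u} [Group Γ] {S : Set Γ} {h : Γ → ℤ} {s : Γ} {H n m : ℕ}

lemma cadj (T : Two S h s H n m) (a b : Γ) (hab : a⁻¹ * b ∈ S) : (cay S).Adj a b := by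
  have := adj_mul T a (a⁻¹ * b) hab
  rwa [mul_inv_cancel_left] at this

/-- the points of the two lines of a pair, numbered by height -/
def Pt (s a b : Γ) (c : Bool) (u : ℤ) : Γ := if c then b * s ^ (u - 1) else a * s ^ u

lemma pt_succ (s a b : Γ) (c : Bool) (u : ℤ) : Pt s a b c (u + 1) = Pt s a b c u * s := by
  unfold Pt
  cases c
  · simp only [Bool.false_eq_true, if_false]
    rw [zpow_add_one, mul_assoc]
  · simp only [if_true]
    rw [mul_assoc, ← zpow_add_one]
    congr 2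
    ring

lemma pt_pos (T : Two S h s H n m) (a b : Γ) (hab : h b = h a + H) (c : Bool) (u : ℤ) :
    pos h H (Pt s a b c u) = pos h H a + u := by
  unfold Pt
  cases c
  · simp only [Bool.false_eq_true, if_false]
    exact pos_mul_zpow T a u
  · simp only [if_true]
    rw [pos_mul_zpow T]
    have hH : (H : ℤ) ≠ 0 := by
      have := T.Hpos
      omega
    have : pos h H b = pos h H a + 1 := by
      unfold pos
      rw [hab]
      have := Int.add_mul_ediv_right (h a) 1 hH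
      rwa [one_mul] at this
    rw [this]
    ring

lemma pt_line (s a b : Γ) (c : Bool) (u : ℤ) : ((Pt s a b c u : Γ) : Γ ⧸ Subgroup.zpowers s) =
    if c then (b : Γ ⧸ Subgroup.zpowers s) else (a : Γ ⧸ Subgroup.zpowers s) := by
  unfold Pt
  cases c
  · simp only [Bool.false_eq_true, if_false]
    exact line_zpow a u
  · simp only [if_true]
    exact line_zpow b _

lemma line_eq {g g' : Γ} (hg : (g : Γ ⧸ Subgroup.zpowers s) = (g' : Γ ⧸ Subgroup.zpowers s)) :
    ∃ k : ℤ, g' = g * s ^ k := by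
  obtain ⟨j, hj⟩ := Subgroup.mem_zpowers_iff.1 (QuotientGroup.eq.1 hg)
  exact ⟨j, by rw [hj, mul_inv_cancel_left]⟩

lemma pt_zpow (s a b : Γ) (c : Bool) (k : ℤ) : Pt s a b c 0 * s ^ k = Pt s a b c k := by
  unfold Pt
  cases c
  · simp only [Bool.false_eq_true, if_false]
    rw [zpow_zero, mul_one]
  · simp only [if_true]
    rw [mul_assoc, ← zpow_add]
    congr 2
    ring

lemma eq_pt (T : Two S h s H n m) (a b g : Γ) (hab : h b = h a + H) (c : Bool)
    (hg : (g : Γ ⧸ Subgroup.zpowers s) =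
      if c then (b : Γ ⧸ Subgroup.zpowers s) else (a : Γ ⧸ Subgroup.zpowers s)) :
    g = Pt s a b c (pos h H g - pos h H a) := by
  have h1 : ((Pt s a b c 0 : Γ) : Γ ⧸ Subgroup.zpowers s) = (g : Γ ⧸ Subgroup.zpowers s) := by
    rw [pt_line, hg]
  obtain ⟨k, hk⟩ := line_eq h1
  rw [pt_zpow] at hk
  have h2 := pt_pos T a b hab c k
  rw [← hk] at h2
  rw [h2]
  have : pos h H a + k - pos h H a = k := by ring
  rw [this]
  exact hk

lemma scomm (T : Two S h s H n m) (g : Γ) (k : ℤ) : g * s ^ ((m : ℤ) * k) = s ^ ((m : ℤ) * k) * g := by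
  have h1 : Commute g (s ^ m) := T.cen g
  have h2 := h1.zpow_right k
  rw [zpow_mul, zpow_natCast]
  exact h2

/-- the crossing edges -/
lemma cross (T : Two S h s H n m) (a b : Γ) (h1 : a⁻¹ * b ∈ S) (h2 : (a * s)⁻¹ * (b * s⁻¹) ∈ S)
    (k : ℤ) : (cay S).Adj (Pt s a b false ((m : ℤ) * k)) (Pt s a b true ((m : ℤ) * k + 1)) ∧
      (cay S).Adj (Pt s a b false ((m : ℤ) * k + 1)) (Pt s a b true ((m : ℤ) * k)) := by
  constructor
  · apply cadj T
    unfold Pt
    simp only [Bool.false_eq_true, if_false, if_true]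
    have e : (m : ℤ) * k + 1 - 1 = (m : ℤ) * k := by ring
    rw [e, scomm T a, scomm T b, mul_inv_rev, mul_assoc, inv_mul_cancel_left]
    exact h1
  · apply cadj T
    unfold Pt
    simp only [Bool.false_eq_true, if_false, if_true]
    have e : b * s ^ ((m : ℤ) * k - 1) = s ^ ((m : ℤ) * k) * (b * s⁻¹) := by
      rw [zpow_sub_one, ← mul_assoc, scomm T b, mul_assoc]
    have e' : a * s ^ ((m : ℤ) * k + 1) = s ^ ((m : ℤ) * k) * (a * s) := by
      rw [zpow_add_one, ← mul_assoc, scomm T a, mul_assoc]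
    rw [e, e', mul_inv_rev (s ^ ((m : ℤ) * k)), mul_assoc, inv_mul_cancel_left]
    exact h2

end

theorem wg_cay {Γ : Type u} [Group Γ] (S : Set Γ) (h : Γ → ℤ) (s : Γ) (H n m : ℕ)
    (T : Two S h s H n m) (hn : 3 ≤ n) (e : (Γ ⧸ Subgroup.zpowers s) ≃ ZMod n)
    (he : IsCyc S s n e) (j0 : ZMod n) (hc : ∀ i : ℕ, Crs S h s H n e (j0 + 2 * i)) (p : ℕ)
    (hp : 2 * p ≤ n) : Mn (Pool.Agent.Helper4.NW.Wg p) (cay S) := by
  have hm : (0 : ℤ) < m := by
    have := T.mpos
    omega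
  -- normalised crossings
  have hc' : ∀ i : ℕ, ∃ a b : Γ, e (a : Γ ⧸ Subgroup.zpowers s) = j0 + 2 * i ∧
      e (b : Γ ⧸ Subgroup.zpowers s) = j0 + 2 * i + 1 ∧ h b = h a + H ∧ a⁻¹ * b ∈ S ∧
      (a * s)⁻¹ * (b * s⁻¹) ∈ S ∧ 0 ≤ pos h H a ∧ pos h H a < m := by
    intro i
    obtain ⟨a, b, h1, h2, h3, h4, h5⟩ := hc i
    have hd := Int.emod_add_mul_ediv (pos h H a) m
    have hr0 := Int.emod_nonneg (pos h H a) hm.ne'
    have hr1 := Int.emod_lt_of_pos (pos h H a) hm
    have hpa : pos h H (a * s ^ ((m : ℤ) * (-(pos h H a / m)))) = pos h H a % m := by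
      rw [pos_mul_zpow T, mul_neg]
      linarith
    refine ⟨a * s ^ ((m : ℤ) * (-(pos h H a / m))), b * s ^ ((m : ℤ) * (-(pos h H a / m))),
      by rw [line_zpow]; exact h1, by rw [line_zpow]; exact h2, ?_, ?_, ?_, ?_, ?_⟩
    · rw [T.hom, T.hom, h3]; ring
    · rw [scomm T a, scomm T b, mul_inv_rev, mul_assoc, inv_mul_cancel_left]
      exact h4
    · rw [scomm T a, scomm T b, mul_assoc, mul_assoc, mul_inv_rev, mul_assoc,
        inv_mul_cancel_left]
      exact h5
    · rw [hpa]; exact hr0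
    · rw [hpa]; exact hr1
  choose a b ha hb hab h1 h2 hp0 hp1 using hc'
  -- lines
  have hline : ∀ (i : ℕ) (c : Bool) (u : ℤ), e ((Pt s (a i) (b i) c u : Γ) :
      Γ ⧸ Subgroup.zpowers s) = j0 + ((2 * i + (if c then 1 else 0) : ℕ) : ZMod n) := by
    intro i c u
    rw [pt_line]
    cases c
    · simp only [Bool.false_eq_true, if_false]
      rw [ha]
      push_cast
      ring
    · simp only [if_true]
      rw [hb]
      push_cast
      ring
  have hlinj : ∀ (i i' : ℕ) (c c' : Bool), i < p → i' < p →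
      j0 + ((2 * i + (if c then 1 else 0) : ℕ) : ZMod n) =
        j0 + ((2 * i' + (if c' then 1 else 0) : ℕ) : ZMod n) → i = i' ∧ c = c' := by
    intro i i' c c' hi hi' heq
    have h3 := add_left_cancel heq
    have h4 := (ZMod.natCast_eq_natCast_iff' _ _ _).1 h3
    rw [Nat.mod_eq_of_lt (by split_ifs <;> omega), Nat.mod_eq_of_lt (by split_ifs <;> omega)] at h4
    cases c <;> cases c' <;> simp at h4 ⊢ <;> omega
  have hadjs : ∀ (i : ℕ) (c : Bool) (u : ℤ),
      (cay S).Adj (Pt s (a i) (b i) c u) (Pt s (a i) (b i) c (u + 1)) := by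
    intro i c u
    rw [pt_succ]
    exact adj_mul T _ s T.hs
  set L : ℤ := 4 * m with hL
  refine ⟨fun v => {g | ∃ u : ℤ, (L * v.1 < u ∧ u ≤ L * v.1 + L) ∧
    Pt s (a v.2.1) (b v.2.1) v.2.2 u = g}, ?_, ?_, ?_⟩
  · rintro ⟨x, i, c⟩
    refine conn_line (fun u : ℤ => Pt s (a i) (b i) c u) (fun u => L * x < u ∧ u ≤ L * x + L)
      (L * x + 1) ⟨by omega, by omega⟩ ?_ ?_ (fun u _ _ => hadjs i c u)
    · rintro u hu ⟨h3, h4⟩
      exact ⟨by omega, by omega⟩
    · rintro u hu ⟨h3, h4⟩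
      exact ⟨by omega, by omega⟩
  · rintro ⟨x, i, c⟩ ⟨x', i', c'⟩ g ⟨u, ⟨hu1, hu2⟩, hu⟩ ⟨u', ⟨hu1', hu2'⟩, hu'⟩
    simp only at hu1 hu2 hu hu1' hu2' hu'
    have e1 := hline i c u
    have e2 := hline i' c' u'
    rw [hu] at e1
    rw [hu'] at e2
    obtain ⟨e3, e4⟩ := hlinj i i' c c' i.2 i'.2 (e1.symm.trans e2)
    have e3' : i = i' := Fin.ext e3
    subst e3'
    subst e4
    have e5 := pt_pos T (a i) (b i) (hab i) c u
    have e6 := pt_pos T (a i) (b i) (hab i) c u'
    rw [hu] at e5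
    rw [hu'] at e6
    have e7 : u = u' := by omega
    subst e7
    have hLpos : 0 < L := by omega
    have k1 : L * x < L * (x' + 1) := by
      have : L * (x' + 1) = L * x' + L := by ring
      omega
    have k2 : L * x' < L * (x + 1) := by
      have : L * (x + 1) = L * x + L := by ring
      omega
    have k3 := lt_of_mul_lt_mul_left k1 hLpos.le
    have k4 := lt_of_mul_lt_mul_left k2 hLpos.le
    have : x = x' := by omega
    rw [this]
  · -- edges
    -- same level, both lines of a pair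
    have same : ∀ (x : ℤ) (i : Fin p), ∃ g ∈ {g | ∃ u : ℤ, (L * x < u ∧ u ≤ L * x + L) ∧
        Pt s (a i) (b i) false u = g}, ∃ g' ∈ {g | ∃ u : ℤ, (L * x < u ∧ u ≤ L * x + L) ∧
        Pt s (a i) (b i) true u = g}, (cay S).Adj g g' := by
      intro x i
      have h3 := (cross T (a i) (b i) (h1 i) (h2 i) (4 * x + 1)).1
      have e3 : (m : ℤ) * (4 * x + 1) = L * x + m := by rw [hL]; ring
      rw [e3] at h3
      exact ⟨_, ⟨L * x + m, ⟨by omega, by omega⟩, rfl⟩, _,
        ⟨L * x + m + 1, ⟨by omega, by omega⟩, rfl⟩, h3⟩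
    -- consecutive levels
    have next : ∀ (x : ℤ) (i : Fin p) (c c' : Bool),
        ∃ g ∈ {g | ∃ u : ℤ, (L * x < u ∧ u ≤ L * x + L) ∧ Pt s (a i) (b i) c u = g},
        ∃ g' ∈ {g | ∃ u : ℤ, (L * (x + 1) < u ∧ u ≤ L * (x + 1) + L) ∧
          Pt s (a i) (b i) c' u = g}, (cay S).Adj g g' := by
      intro x i c c'
      have e3 : (m : ℤ) * (4 * x + 4) = L * x + L := by rw [hL]; ring
      have e4 : L * (x + 1) = L * x + L := by ring
      have h3 := cross T (a i) (b i) (h1 i) (h2 i) (4 * x + 4)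
      rw [e3] at h3
      have main : (cay S).Adj (Pt s (a i) (b i) c (L * x + L))
          (Pt s (a i) (b i) c' (L * x + L + 1)) := by
        cases c <;> cases c'
        · exact hadjs i false _
        · exact h3.1
        · exact h3.2.symm
        · exact hadjs i true _
      exact ⟨_, ⟨L * x + L, ⟨by omega, by omega⟩, rfl⟩, _,
        ⟨L * x + L + 1, ⟨by omega, by omega⟩, rfl⟩, main⟩
    have hor : ∀ (x : ℤ) (i i' : Fin p), (i' : ℕ) = i + 1 →
        ∃ g ∈ {g | ∃ u : ℤ, (L * x < u ∧ u ≤ L * x + L) ∧ Pt s (a i) (b i) true u = g},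
        ∃ g' ∈ {g | ∃ u : ℤ, (L * x < u ∧ u ≤ L * x + L) ∧
          Pt s (a i') (b i') false u = g}, (cay S).Adj g g' := by
      intro x i i' hi
      have hA : (Ln S s).Adj ((b i : Γ) : Γ ⧸ Subgroup.zpowers s)
          ((a i' : Γ) : Γ ⧸ Subgroup.zpowers s) := by
        rw [he]
        left
        rw [ha, hb, hi]
        push_cast
        ring
      obtain ⟨g, g', hg, hg', hadj, ⟨q1, q2⟩, q3, q4⟩ := edge T _ _ hA (L * x + 2 * m)
      have r1 := eq_pt T (a i) (b i) g (hab i) true (by simp only [if_true]; exact hg)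
      have r2 := eq_pt T (a i') (b i') g' (hab i') false
        (by simp only [Bool.false_eq_true, if_false]; exact hg')
      have w1 := hp0 i
      have w2 := hp1 i
      have w3 := hp0 i'
      have w4 := hp1 i'
      exact ⟨g, ⟨_, ⟨by omega, by omega⟩, r1.symm⟩, g', ⟨_, ⟨by omega, by omega⟩, r2.symm⟩, hadj⟩
    have key : ∀ v w : ℤ × Fin p × Bool, v ≠ w → ((v.2.1 = w.2.1 ∧ |v.1 - w.1| ≤ 1) ∨
        (v.1 = w.1 ∧ (w.2.1 : ℕ) = v.2.1 + 1 ∧ v.2.2 = true ∧ w.2.2 = false)) →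
        ∃ g ∈ {g | ∃ u : ℤ, (L * v.1 < u ∧ u ≤ L * v.1 + L) ∧
          Pt s (a v.2.1) (b v.2.1) v.2.2 u = g},
        ∃ g' ∈ {g | ∃ u : ℤ, (L * w.1 < u ∧ u ≤ L * w.1 + L) ∧
          Pt s (a w.2.1) (b w.2.1) w.2.2 u = g}, (cay S).Adj g g' := by
      rintro ⟨x, i, c⟩ ⟨y, i', c'⟩ hne (⟨e1, e2⟩ | ⟨e1, e2, e3, e4⟩)
      · simp only at e1 e2 ⊢
        subst e1
        rw [abs_le] at e2
        rcases (by omega : y = x ∨ y = x + 1 ∨ x = y + 1) with h3 | h3 | h3
        · subst h3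
          cases c <;> cases c'
          · exact absurd rfl hne
          · exact same y i
          · obtain ⟨g, hg, g', hg', hadj⟩ := same y i
            exact ⟨g', hg', g, hg, hadj.symm⟩
          · exact absurd rfl hne
        · subst h3
          exact next x i c c'
        · subst h3
          obtain ⟨g, hg, g', hg', hadj⟩ := next y i c' c
          exact ⟨g', hg', g, hg, hadj.symm⟩
      · simp only at e1 e2 e3 e4 ⊢
        subst e1
        subst e3
        subst e4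
        exact hor x i i' e2
    rintro v w hvw
    unfold Pool.Agent.Helper4.NW.Wg at hvw
    rw [SimpleGraph.fromRel_adj] at hvw
    obtain ⟨hne, h3 | h3⟩ := hvw
    · exact key v w hne h3
    · obtain ⟨g, hg, g', hg', hadj⟩ := key w v hne.symm h3
      exact ⟨g', hg', g, hg, hadj.symm⟩

/-- PACKET CRX. -/
theorem crx : CrxStmt.{u} := by
  intro Γ _ S h s H n m T hn e he hc q hq
  obtain ⟨j0, hj0⟩ := Pool.Agent.Helper7.NW.crs_shift T hn e he hc
  have hB := wg_cay S h s H n m T hn e he j0 hj0 (q + 1) (by omega)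
  exact ((Pool.Agent.Helper4.NW.starZ_le (Nat.le_succ q)).trans
    (Pool.Agent.Helper4.NW.starZ_wg (Nat.succ_pos q))).trans hB

end Pool.Agent.Helper24.NW
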