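import Pool.Agent.Helper61.NW.Goals

/-! Project NW (MP_266b34_co), packet CYL: cylinders without crossings. -/

set_option autoImplicit false

namespace Pool.Agent.Helper24.NW

open Pool.Agent.Helper52.Wq2 Pool.Agent.Helper61.NW

/-- the row of the route at the column `x` -/
def Rw (α β x : ℤ) : ℤ := max (min β (α + x)) (α - x)

lemma Rw_zero (α β : ℤ) : Rw α β 0 = α := by unfold Rw; omega

lemma Rw_end (α β x : ℤ) (h1 : β ≤ α + x) (h2 : α - x ≤ β) : Rw α β x = β := by
  unfold Rw; omega

lemma Rw_gap (α β α' β' x : ℤ) (h1 : α + 3 ≤ α') (h2 : β + 3 ≤ β') :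
    Rw α β x + 3 ≤ Rw α' β' x := by unfold Rw; omega

lemma Rw_step (α β x : ℤ) : Rw α β (x + 1) ≤ Rw α β x + 1 ∧ Rw α β x ≤ Rw α β (x + 1) + 1 := by
  unfold Rw; omega

lemma cyl_v {M : ℕ} (r : ℤ) (k : ZMod M) : (Cyl M).Adj (r, k) (r + 1, k) := by
  unfold Cyl
  rw [SimpleGraph.fromRel_adj]
  refine ⟨?_, Or.inl (Or.inl ⟨rfl, rfl⟩)⟩
  intro h
  have := congrArg Prod.fst h
  simp at this

lemma cyl_h {M : ℕ} (hM : 2 ≤ M) (r : ℤ) (k : ZMod M) : (Cyl M).Adj (r, k) (r, k + 1) := by
  unfold Cyl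
  rw [SimpleGraph.fromRel_adj]
  refine ⟨?_, Or.inl (Or.inr ⟨rfl, rfl⟩)⟩
  intro h
  have h1 := congrArg Prod.snd h
  have : Fact (1 < M) := ⟨by omega⟩
  simp at h1

/-- width of the gap `J` -/
def wd (n M w J : ℕ) : ℕ := if J + 1 = n then M - w * J else w

/-- vertical reach -/
lemma vreach {M : ℕ} (s : Set (ℤ × ZMod M)) (k : ZMod M) (r₀ r₁ : ℤ)
    (hs : ∀ r, min r₀ r₁ ≤ r → r ≤ max r₀ r₁ → (r, k) ∈ s) :
    Relation.ReflTransGen (fun a b => (Cyl M).Adj a b ∧ b ∈ s) (r₀, k) (r₁, k) := by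
  have up : ∀ d : ℕ, (∀ r, r₀ ≤ r → r ≤ r₀ + d → (r, k) ∈ s) →
      Relation.ReflTransGen (fun a b => (Cyl M).Adj a b ∧ b ∈ s) (r₀, k) (r₀ + d, k) := by
    intro d
    induction d with
    | zero =>
      intro _
      have e : r₀ + ((0 : ℕ) : ℤ) = r₀ := by omega
      rw [e]
    | succ d ih =>
      intro h
      have h1 := ih (fun r hr1 hr2 => h r hr1 (by push_cast; omega))
      refine h1.tail ⟨?_, h _ (by omega) (le_refl _)⟩
      have e : r₀ + ((d + 1 : ℕ) : ℤ) = (r₀ + d) + 1 := by push_cast; ring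
      rw [e]
      exact cyl_v _ _
  have dn : ∀ d : ℕ, (∀ r, r₀ - d ≤ r → r ≤ r₀ → (r, k) ∈ s) →
      Relation.ReflTransGen (fun a b => (Cyl M).Adj a b ∧ b ∈ s) (r₀, k) (r₀ - d, k) := by
    intro d
    induction d with
    | zero =>
      intro _
      have e : r₀ - ((0 : ℕ) : ℤ) = r₀ := by omega
      rw [e]
    | succ d ih =>
      intro h
      have h1 := ih (fun r hr1 hr2 => h r (by push_cast; omega) hr2)
      refine h1.tail ⟨?_, h _ (le_refl _) (by push_cast; omega)⟩
      have e : r₀ - (d : ℤ) = (r₀ - ((d + 1 : ℕ) : ℤ)) + 1 := by push_cast; ring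
      rw [e]
      exact (cyl_v _ _).symm
  rcases le_total r₀ r₁ with h | h
  · have e : r₁ = r₀ + ((r₁ - r₀).toNat : ℤ) := by omega
    rw [e]
    exact up _ (fun r h1 h2 => hs r (by omega) (by omega))
  · have e : r₁ = r₀ - ((r₀ - r₁).toNat : ℤ) := by omega
    rw [e]
    exact dn _ (fun r h1 h2 => hs r (by omega) (by omega))

/-- the branch sets -/
def Br (n M w : ℕ) (C D : ℤ) (E : ZMod n → ℤ → ℤ → Prop) (v : ℤ × ZMod n) : Set (ℤ × ZMod M) :=
  {p | ∃ (x : ℕ) (r : ℤ), p = (r, ((w * v.2.val + x : ℕ) : ZMod M)) ∧ x < wd n M w v.2.val ∧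
    ((x = 0 ∧ C * v.1 ≤ r ∧ r < C * v.1 + C) ∨
      ∃ (y : ℕ) (b : ℤ), x = y + 1 ∧ E v.2 v.1 b ∧
        min (Rw (C * v.1 + 3 * (b - v.1 + D)) (C * b + 3 * (v.1 - b + D)) y)
          (Rw (C * v.1 + 3 * (b - v.1 + D)) (C * b + 3 * (v.1 - b + D)) (y + 1)) ≤ r ∧
        r ≤ max (Rw (C * v.1 + 3 * (b - v.1 + D)) (C * b + 3 * (v.1 - b + D)) y)
          (Rw (C * v.1 + 3 * (b - v.1 + D)) (C * b + 3 * (v.1 - b + D)) (y + 1)))}

theorem cyl : CylStmt := by
  intro n hn D E hD hE
  set w : ℕ := 6 * D * D + 2 with hw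
  refine ⟨w * n, fun M hM => ?_⟩
  have hne : NeZero n := ⟨by omega⟩
  have hn0 : 0 < n := by omega
  have hwn : w * 3 ≤ w * n := Nat.mul_le_mul_left w hn
  have hM2 : 2 ≤ M := by omega
  have hneM : NeZero M := ⟨by omega⟩
  set C : ℤ := 6 * (D + 1) with hC
  have hCpos : 6 ≤ C := by omega
  -- widths
  have hwd : ∀ J, J < n → w ≤ wd n M w J := by
    intro J hJ
    unfold wd
    split_ifs with h
    · have : w * n = w * J + w := by rw [← h]; ring
      omega
    · exact le_refl _
  have hlt : ∀ J x, J < n → x < wd n M w J → w * J + x < M := by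
    intro J x hJ hx
    unfold wd at hx
    split_ifs at hx with h
    · omega
    · have h1 : w * (J + 1) ≤ w * n := Nat.mul_le_mul_left w hJ
      have h2 : w * (J + 1) = w * J + w := by ring
      omega
  have huniq' : ∀ J x J' x', J < n → J' < n → x < wd n M w J → x' < wd n M w J' →
      w * J + x = w * J' + x' → ¬ J < J' := by
    intro J x J' x' hJ hJ' hx hx' he hJJ
    unfold wd at hx
    rw [if_neg (by omega)] at hx
    have h1 : w * (J + 1) ≤ w * J' := Nat.mul_le_mul_left w hJJ
    have h2 : w * (J + 1) = w * J + w := by ring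
    omega
  have huniq : ∀ J x J' x', J < n → J' < n → x < wd n M w J → x' < wd n M w J' →
      ((w * J + x : ℕ) : ZMod M) = ((w * J' + x' : ℕ) : ZMod M) → J = J' ∧ x = x' := by
    intro J x J' x' hJ hJ' hx hx' he
    have h1 := (ZMod.natCast_eq_natCast_iff' _ _ _).1 he
    rw [Nat.mod_eq_of_lt (hlt J x hJ hx), Nat.mod_eq_of_lt (hlt J' x' hJ' hx')] at h1
    have h2 := huniq' J x J' x' hJ hJ' hx hx' h1
    have h3 := huniq' J' x' J x hJ' hJ hx' hx h1.symm
    have h4 : J = J' := by omega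
    subst h4
    exact ⟨rfl, by omega⟩
  -- bounds for alpha, beta
  have habs : ∀ j a b, E j a b → b - a ≤ D ∧ a - b ≤ D := by
    intro j a b h
    have := hD j a b h
    rw [abs_le] at this
    omega
  have hDD : ∀ j a b, E j a b → (6 * (D : ℤ)) * (b - a) ≤ 6 * D * D ∧
      (6 * (D : ℤ)) * (a - b) ≤ 6 * D * D := by
    intro j a b h
    obtain ⟨h1, h2⟩ := habs j a b h
    have h0 : (0 : ℤ) ≤ 6 * D := by positivity
    exact ⟨mul_le_mul_of_nonneg_left h1 h0, mul_le_mul_of_nonneg_left h2 h0⟩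
  have hab : ∀ a b : ℤ, (C * b + 3 * (a - b + D)) - (C * a + 3 * (b - a + D)) =
      6 * D * (b - a) := by
    intro a b
    rw [hC]; ring
  have hend : ∀ j a b (x : ℤ), E j a b → (w : ℤ) - 1 ≤ x →
      Rw (C * a + 3 * (b - a + D)) (C * b + 3 * (a - b + D)) x = C * b + 3 * (a - b + D) := by
    intro j a b x h hx
    obtain ⟨h1, h2⟩ := hDD j a b h
    have h3 := hab a b
    have h5 := hab b a
    have h4 : (w : ℤ) = 6 * D * D + 2 := by rw [hw]; push_cast; ring
    apply Rw_end
    · linarith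
    · linarith
  have hgap : ∀ j a b a' b', E j a b → E j a' b' → a < a' →
      C * a + 3 * (b - a + D) + 3 ≤ C * a' + 3 * (b' - a' + D) ∧
      C * b + 3 * (a - b + D) + 3 ≤ C * b' + 3 * (a' - b' + D) := by
    intro j a b a' b' h h' haa
    have hbb := hE j a b a' b' h h' haa
    have h1 : (C - 3) * 1 ≤ (C - 3) * (a' - a) := mul_le_mul_of_nonneg_left (by omega) (by omega)
    have h2 : (C - 3) * 0 ≤ (C - 3) * (b' - b) := mul_le_mul_of_nonneg_left (by omega) (by omega)
    constructor
    · have e : C * a' + 3 * (b' - a' + D) - (C * a + 3 * (b - a + D)) =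
        (C - 3) * (a' - a) + 3 * (b' - b) := by ring
      linarith
    · have e : C * b' + 3 * (a' - b' + D) - (C * b + 3 * (a - b + D)) =
        (C - 3) * (b' - b) + 3 * (a' - a) := by ring
      linarith
  have hcast : ∀ J x : ℕ, ((w * J + (x + 1) : ℕ) : ZMod M) = ((w * J + x : ℕ) : ZMod M) + 1 := by
    intro J x
    push_cast
    ring
  refine ⟨Br n M w C D E, ?_, ?_, ?_⟩
  · -- connected
    rintro ⟨a, j⟩
    have hJ : j.val < n := ZMod.val_lt j
    have hwJ := hwd j.val hJ
    have hseg : ∀ r : ℤ, C * a ≤ r → r < C * a + C →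
        ((r, ((w * j.val + 0 : ℕ) : ZMod M)) : ℤ × ZMod M) ∈ Br n M w C D E (a, j) :=
      fun r h1 h2 => ⟨0, r, rfl, by show 0 < wd n M w j.val; omega, Or.inl ⟨rfl, h1, h2⟩⟩
    refine conn_of_root (r := ((C * a, ((w * j.val + 0 : ℕ) : ZMod M)) : ℤ × ZMod M))
      (hseg _ (le_refl _) (by omega)) ?_
    -- the routes
    have route : ∀ b, E j a b → ∀ x : ℕ, x < wd n M w j.val →
        Relation.ReflTransGen (fun p q => (Cyl M).Adj p q ∧ q ∈ Br n M w C D E (a, j))
          ((C * a, ((w * j.val + 0 : ℕ) : ZMod M)) : ℤ × ZMod M)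
          ((Rw (C * a + 3 * (b - a + D)) (C * b + 3 * (a - b + D)) x,
            ((w * j.val + x : ℕ) : ZMod M)) : ℤ × ZMod M) := by
      intro b hb x
      induction x with
      | zero =>
        intro _
        rw [Nat.cast_zero, Rw_zero]
        obtain ⟨h1, h2⟩ := habs j a b hb
        exact vreach _ _ _ _ (fun r hr1 hr2 => hseg r (by omega) (by omega))
      | succ x ih =>
        intro hx
        have h1 := ih (by omega)
        have hmem : ∀ r : ℤ, min (Rw (C * a + 3 * (b - a + D)) (C * b + 3 * (a - b + D)) x)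
              (Rw (C * a + 3 * (b - a + D)) (C * b + 3 * (a - b + D)) (x + 1)) ≤ r →
            r ≤ max (Rw (C * a + 3 * (b - a + D)) (C * b + 3 * (a - b + D)) x)
              (Rw (C * a + 3 * (b - a + D)) (C * b + 3 * (a - b + D)) (x + 1)) →
            ((r, ((w * j.val + (x + 1) : ℕ) : ZMod M)) : ℤ × ZMod M) ∈ Br n M w C D E (a, j) :=
          fun r hr1 hr2 => ⟨x + 1, r, rfl, hx, Or.inr ⟨x, b, rfl, hb, hr1, hr2⟩⟩
        have h2 : Relation.ReflTransGen (fun p q => (Cyl M).Adj p q ∧ q ∈ Br n M w C D E (a, j))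
            ((C * a, ((w * j.val + 0 : ℕ) : ZMod M)) : ℤ × ZMod M)
            ((Rw (C * a + 3 * (b - a + D)) (C * b + 3 * (a - b + D)) x,
              ((w * j.val + (x + 1) : ℕ) : ZMod M)) : ℤ × ZMod M) := by
          refine h1.tail ⟨?_, hmem _ (min_le_left _ _) (le_max_left _ _)⟩
          rw [hcast]
          exact cyl_h hM2 _ _
        refine h2.trans ?_
        rw [Nat.cast_succ]
        exact vreach _ _ _ _ hmem
    rintro p ⟨x, r, rfl, hx, ⟨rfl, h1, h2⟩ | ⟨y, b, rfl, hb, h1, h2⟩⟩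
    · exact vreach _ _ _ _ (fun r' hr1 hr2 => hseg r' (by simp only at h1 h2; omega)
        (by simp only at h1 h2; omega))
    · have hx' : y < wd n M w j.val := by
        have : y + 1 < wd n M w j.val := hx
        omega
      have h3 := route b hb y hx'
      have hmem : ∀ r : ℤ, min (Rw (C * a + 3 * (b - a + D)) (C * b + 3 * (a - b + D)) y)
            (Rw (C * a + 3 * (b - a + D)) (C * b + 3 * (a - b + D)) (y + 1)) ≤ r →
          r ≤ max (Rw (C * a + 3 * (b - a + D)) (C * b + 3 * (a - b + D)) y)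
            (Rw (C * a + 3 * (b - a + D)) (C * b + 3 * (a - b + D)) (y + 1)) →
          ((r, ((w * j.val + (y + 1) : ℕ) : ZMod M)) : ℤ × ZMod M) ∈ Br n M w C D E (a, j) :=
        fun r hr1 hr2 => ⟨y + 1, r, rfl, hx, Or.inr ⟨y, b, rfl, hb, hr1, hr2⟩⟩
      have h4 : Relation.ReflTransGen (fun p q => (Cyl M).Adj p q ∧ q ∈ Br n M w C D E (a, j))
          ((C * a, ((w * j.val + 0 : ℕ) : ZMod M)) : ℤ × ZMod M)
          ((Rw (C * a + 3 * (b - a + D)) (C * b + 3 * (a - b + D)) y,
            ((w * j.val + (y + 1) : ℕ) : ZMod M)) : ℤ × ZMod M) := by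
        refine h3.tail ⟨?_, hmem _ (min_le_left _ _) (le_max_left _ _)⟩
        rw [hcast]
        exact cyl_h hM2 _ _
      refine h4.trans (vreach _ _ _ _ (fun r' hr1 hr2 => hmem r' ?_ ?_))
      · simp only at h1 h2
        exact le_trans (le_min (min_le_left _ _) h1) hr1
      · simp only at h1 h2
        exact le_trans hr2 (max_le (le_max_left _ _) h2)
  · -- disjoint
    rintro ⟨a, j⟩ ⟨a', j'⟩ p ⟨x, r, hp, hx, h⟩ ⟨x', r', hp', hx', h'⟩
    rw [hp] at hp'
    simp only at h h' hx hx' hp'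
    have hr : r = r' := congrArg Prod.fst hp'
    have hk := congrArg Prod.snd hp'
    simp only at hk
    obtain ⟨e1, e2⟩ := huniq _ _ _ _ (ZMod.val_lt j) (ZMod.val_lt j') hx hx' hk
    have ej : j = j' := ZMod.val_injective n e1
    subst ej
    subst hr
    subst e2
    rcases h with ⟨h0, h1, h2⟩ | ⟨y, b, h0, h1, h2, h3⟩
    · rcases h' with ⟨_, h1', h2'⟩ | ⟨y', b', h0', _⟩
      · have ea : a = a' := by
          have k1 : C * a < C * (a' + 1) := by linarith
          have k2 : C * a' < C * (a + 1) := by linarith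
          have k3 := lt_of_mul_lt_mul_left k1 (by omega)
          have k4 := lt_of_mul_lt_mul_left k2 (by omega)
          omega
        rw [ea]
      · omega
    · rcases h' with ⟨h0', _⟩ | ⟨y', b', h0', h1', h2', h3'⟩
      · omega
      · have ey : y' = y := by omega
        subst ey
        by_contra hne
        have haa : a ≠ a' := fun h => hne (by rw [h])
        have s1 := Rw_step (C * a + 3 * (b - a + D)) (C * b + 3 * (a - b + D)) y'
        have s2 := Rw_step (C * a' + 3 * (b' - a' + D)) (C * b' + 3 * (a' - b' + D)) y'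
        rcases lt_or_gt_of_ne haa with h4 | h4
        · obtain ⟨g1, g2⟩ := hgap j a b a' b' h1 h1' h4
          have g3 := Rw_gap _ _ _ _ (y' : ℤ) g1 g2
          have g4 := Rw_gap _ _ _ _ ((y' : ℤ) + 1) g1 g2
          omega
        · obtain ⟨g1, g2⟩ := hgap j a' b' a b h1' h1 h4
          have g3 := Rw_gap _ _ _ _ (y' : ℤ) g1 g2
          have g4 := Rw_gap _ _ _ _ ((y' : ℤ) + 1) g1 g2
          omega
  · -- adjacency
    have key : ∀ x y : ℤ × ZMod n, ((y.2 = x.2 ∧ y.1 = x.1 + 1) ∨
        (y.2 = x.2 + 1 ∧ E x.2 x.1 y.1)) →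
        ∃ p ∈ Br n M w C D E x, ∃ q ∈ Br n M w C D E y, (Cyl M).Adj p q := by
      rintro ⟨a, j⟩ ⟨b, j'⟩ (⟨h1, h2⟩ | ⟨h1, h2⟩)
      · simp only at h1 h2
        subst h1 h2
        have hwJ := hwd j'.val (ZMod.val_lt j')
        refine ⟨(C * a + C - 1, ((w * j'.val + 0 : ℕ) : ZMod M)),
          ⟨0, _, rfl, by show 0 < wd n M w j'.val; omega, Or.inl ⟨rfl, ?_, ?_⟩⟩,
          (C * (a + 1), ((w * j'.val + 0 : ℕ) : ZMod M)),
          ⟨0, _, rfl, by show 0 < wd n M w j'.val; omega, Or.inl ⟨rfl, ?_, ?_⟩⟩, ?_⟩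
        · show C * a ≤ C * a + C - 1
          omega
        · show C * a + C - 1 < C * a + C
          omega
        · show C * (a + 1) ≤ C * (a + 1)
          exact le_refl _
        · show C * (a + 1) < C * (a + 1) + C
          omega
        · have e : C * (a + 1) = (C * a + C - 1) + 1 := by ring
          rw [e]
          exact cyl_v _ _
      · simp only at h1 h2
        subst h1
        have hJ := ZMod.val_lt j
        have hwJ := hwd j.val hJ
        have hw2 : 2 ≤ w := by omega
        obtain ⟨u, hu⟩ : ∃ u, wd n M w j.val = u + 2 := ⟨wd n M w j.val - 2, by omega⟩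
        have hR := hend j a b ((u : ℤ) + 1) h2 (by omega)
        obtain ⟨b1, b2⟩ := habs j a b h2
        have hwJ' := hwd (j + 1).val (ZMod.val_lt _)
        refine ⟨(C * b + 3 * (a - b + D), ((w * j.val + (u + 1) : ℕ) : ZMod M)),
          ⟨u + 1, _, rfl, by show u + 1 < wd n M w j.val; omega,
            Or.inr ⟨u, b, rfl, h2, ?_, ?_⟩⟩,
          (C * b + 3 * (a - b + D), ((w * (j + 1).val + 0 : ℕ) : ZMod M)),
          ⟨0, _, rfl, by show 0 < wd n M w (j + 1).val; omega, Or.inl ⟨rfl, ?_, ?_⟩⟩, ?_⟩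
        · refine (min_le_right _ _).trans ?_
          exact hR.le
        · refine le_trans ?_ (le_max_right _ _)
          exact hR.ge
        · show C * b ≤ C * b + 3 * (a - b + D)
          omega
        · show C * b + 3 * (a - b + D) < C * b + C
          omega
        · have ek : ((w * (j + 1).val + 0 : ℕ) : ZMod M) =
              ((w * j.val + (u + 1) : ℕ) : ZMod M) + 1 := by
            rw [← hcast]
            by_cases hl : j.val + 1 = n
            · have hv : (j + 1).val = 0 := by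
                have h3 : ((j.val + 1 : ℕ) : ZMod n) = j + 1 := by
                  push_cast
                  rw [ZMod.natCast_zmod_val]
                rw [← h3, hl]
                simp
              have hu' : w * j.val + (u + 1 + 1) = M := by
                unfold wd at hu
                rw [if_pos hl] at hu
                omega
              rw [hv, hu']
              simp
            · have hv : (j + 1).val = j.val + 1 := by
                have h3 : ((j.val + 1 : ℕ) : ZMod n) = j + 1 := by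
                  push_cast
                  rw [ZMod.natCast_zmod_val]
                rw [← h3, ZMod.val_natCast, Nat.mod_eq_of_lt (by omega)]
              unfold wd at hu
              rw [if_neg hl] at hu
              rw [hv]
              congr 1
              rw [Nat.mul_add]
              omega
          rw [ek]
          exact cyl_h hM2 _ _
    rintro x y hxy
    rw [SimpleGraph.fromRel_adj] at hxy
    rcases hxy.2 with h | h
    · exact key x y h
    · obtain ⟨p, hp, q, hq, hpq⟩ := key y x h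
      exact ⟨q, hq, p, hp, hpq.symm⟩

end Pool.Agent.Helper24.NW
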