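import Pool.Agent.Helper24.NW.DIHA

/-! Project NW+ (MP_266b34_co), packet DIH. -/

set_option autoImplicit false

namespace Pool.Agent.Helper24.NW

open Pool.Agent.Helper52.Wq2 Pool.Agent.Helper61.NW
open scoped Nat

universe u

section

variable {Γ : Type u} [Group Γ] {ε : Γ →* ℤˣ} {h : Γ → ℤ}

lemma dh_one (D : Dh ε h) : h 1 = 0 := by
  have h1 := D.coc 1 1
  rw [mul_one, map_one] at h1
  push_cast at h1
  omega

lemma eps_inv (g : Γ) : ε g⁻¹ = ε g := by
  rw [map_inv]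
  rcases Int.units_eq_one_or (ε g) with h1 | h1 <;> rw [h1] <;> rfl

lemma dh_inv (D : Dh ε h) (g : Γ) : h g⁻¹ = - ((ε g : ℤ) * h g) := by
  have h1 := D.coc g⁻¹ g
  rw [inv_mul_cancel, dh_one D, eps_inv] at h1
  omega

lemma fib_finite (D : Dh ε h) (e0 : ℤˣ) (v : ℤ) : {g | ε g = e0 ∧ h g = v}.Finite := by
  by_cases hne : ∃ g0, ε g0 = e0 ∧ h g0 = v
  · obtain ⟨g0, h1, h2⟩ := hne
    refine (D.ker.image (fun k => g0 * k)).subset ?_
    rintro g ⟨h3, h4⟩
    refine ⟨g0⁻¹ * g, ⟨?_, ?_⟩, mul_inv_cancel_left _ _⟩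
    · rw [map_mul, eps_inv, h1, h3]
      rcases Int.units_eq_one_or e0 with h5 | h5 <;> rw [h5] <;> rfl
    · rw [D.coc, dh_inv D, eps_inv, h1, h2, h4]
      ring
  · push Not at hne
    refine (Set.finite_empty).subset ?_
    rintro g ⟨h3, h4⟩
    exact absurd h4 (hne g h3)

/-- the height -/
def Xh (ε : Γ →* ℤˣ) (h : Γ → ℤ) (y0 : ℤ) (g : Γ) : ℤ := 4 * h g + (ε g : ℤ) * y0

lemma Xh_mul (D : Dh ε h) (y0 : ℤ) (g t : Γ) :
    Xh ε h y0 (g * t) = Xh ε h y0 g + (ε g : ℤ) * (Xh ε h y0 t - y0) := by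
  unfold Xh
  rw [D.coc, map_mul]
  push_cast
  ring

lemma Xh_mul' (D : Dh ε h) (y0 : ℤ) (g t : Γ) :
    Xh ε h y0 (g * t) = 4 * h g + (ε g : ℤ) * Xh ε h y0 t := by
  unfold Xh
  rw [D.coc, map_mul]
  push_cast
  ring

lemma Xh_finite (D : Dh ε h) (y0 H : ℤ) : {g | 0 ≤ Xh ε h y0 g ∧ Xh ε h y0 g < H}.Finite := by
  refine Set.Finite.subset (Set.Finite.biUnion (Set.finite_Icc (-|y0|) (H + |y0|))
    (fun v _ => (fib_finite D 1 v).union (fib_finite D (-1) v))) ?_
  rintro g ⟨h1, h2⟩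
  rw [Set.mem_iUnion₂]
  have h3 : -|y0| ≤ y0 := neg_abs_le y0
  have h4 : y0 ≤ |y0| := le_abs_self y0
  unfold Xh at h1 h2
  rcases Int.units_eq_one_or (ε g) with h5 | h5
  · rw [h5] at h1 h2
    push_cast at h1 h2
    exact ⟨h g, ⟨by omega, by omega⟩, Or.inl ⟨h5, rfl⟩⟩
  · rw [h5] at h1 h2
    push_cast at h1 h2
    exact ⟨h g, ⟨by omega, by omega⟩, Or.inr ⟨h5, rfl⟩⟩

/-- the choice of the successors -/
lemma choice (D : Dh ε h) (S : Set Γ) (hS : IsGen S) (hfin : S.Finite) :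
    ∃ (y0 H : ℤ) (t r : Γ), 0 < H ∧ t ∈ S ∧ r ∈ S ∧ Xh ε h y0 t - y0 = H ∧
      Xh ε h y0 r - y0 = -H ∧ (∀ u ∈ S, |Xh ε h y0 u - y0| ≤ H) ∧
      ((ε t = 1 ∧ ε r = 1 ∧ r = t⁻¹) ∨ (ε t = -1 ∧ ε r = -1)) := by
  -- a reflection in S
  have hrefl : ∃ u ∈ S, ε u = -1 := by
    by_contra hcon
    push Not at hcon
    have h1 : Subgroup.closure S ≤ ε.ker := by
      rw [Subgroup.closure_le]
      intro u hu
      rcases Int.units_eq_one_or (ε u) with h2 | h2
      · exact h2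
      · exact absurd h2 (hcon u hu)
    obtain ⟨u, hu⟩ := D.neg
    have h2 : ε u = 1 := h1 (by rw [hS.1]; trivial)
    rw [h2] at hu
    exact absurd hu (by decide)
  obtain ⟨u0, hu0, hu0'⟩ := hrefl
  have hRfin : {u | u ∈ S ∧ ε u = -1}.Finite := hfin.subset (fun u hu => hu.1)
  obtain ⟨t, ⟨ht, ht'⟩, htmax⟩ := Set.exists_max_image {u | u ∈ S ∧ ε u = -1} h hRfin
    ⟨u0, hu0, hu0'⟩
  obtain ⟨r, ⟨hr, hr'⟩, hrmin⟩ := Set.exists_min_image {u | u ∈ S ∧ ε u = -1} h hRfin
    ⟨u0, hu0, hu0'⟩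
  set y0 : ℤ := h t + h r with hy0
  obtain ⟨u1, hu1, hmax⟩ := Set.exists_max_image S (fun u => |Xh ε h y0 u - y0|) hfin
    ⟨u0, hu0⟩
  have hpos : 0 < |Xh ε h y0 u1 - y0| := by
    by_contra hcon
    have h0 : |Xh ε h y0 u1 - y0| = 0 := le_antisymm (not_lt.1 hcon) (abs_nonneg _)
    have h1 : ∀ u ∈ S, Xh ε h y0 u - y0 = 0 := by
      intro u hu
      have h2 : |Xh ε h y0 u - y0| ≤ |Xh ε h y0 u1 - y0| := hmax u hu
      rw [h0] at h2
      exact abs_eq_zero.1 (le_antisymm h2 (abs_nonneg _))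
    have h2 : ∀ y ∈ Subgroup.closure S, ∀ g, Xh ε h y0 (g * y) = Xh ε h y0 g := by
      intro y hy
      induction hy using Subgroup.closure_induction with
      | mem u hu =>
        intro g
        rw [Xh_mul D, h1 u hu, mul_zero, add_zero]
      | one => intro g; rw [mul_one]
      | mul x y _ _ hx hy => intro g; rw [← mul_assoc, hy, hx]
      | inv x _ hx =>
        intro g
        have := hx (g * x⁻¹)
        rw [inv_mul_cancel_right] at this
        exact this.symm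
    obtain ⟨g, hg1, hg2⟩ := D.unb
    have h3 := h2 g (by rw [hS.1]; trivial) 1
    rw [one_mul] at h3
    unfold Xh at h3
    rw [hg1, map_one, dh_one D] at h3
    push_cast at h3
    omega
  have hXt : Xh ε h y0 t - y0 = 2 * (h t - h r) := by
    unfold Xh
    rw [ht']
    push_cast
    rw [hy0]
    ring
  have hXr : Xh ε h y0 r - y0 = -(2 * (h t - h r)) := by
    unfold Xh
    rw [hr']
    push_cast
    rw [hy0]
    ring
  rcases Int.units_eq_one_or (ε u1) with h1 | h1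
  · -- case 1
    have hXu : Xh ε h y0 u1 - y0 = 4 * h u1 := by
      unfold Xh
      rw [h1]
      push_cast
      ring
    have hXu' : Xh ε h y0 u1⁻¹ - y0 = -(4 * h u1) := by
      unfold Xh
      rw [eps_inv, dh_inv D, h1]
      push_cast
      ring
    rcases le_total 0 (4 * h u1) with h2 | h2
    · have h3 : |Xh ε h y0 u1 - y0| = 4 * h u1 := by rw [hXu, abs_of_nonneg h2]
      refine ⟨y0, 4 * h u1, u1, u1⁻¹, by rw [← h3]; exact hpos, hu1, hS.2.1 _ hu1, hXu, hXu',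
        fun u hu => ?_, Or.inl ⟨h1, by rw [eps_inv]; exact h1, rfl⟩⟩
      rw [← h3]
      exact hmax u hu
    · have h3 : |Xh ε h y0 u1 - y0| = -(4 * h u1) := by rw [hXu, abs_of_nonpos h2]
      refine ⟨y0, -(4 * h u1), u1⁻¹, u1, by rw [← h3]; exact hpos, hS.2.1 _ hu1, hu1, hXu',
        by rw [hXu]; ring, fun u hu => ?_,
        Or.inl ⟨by rw [eps_inv]; exact h1, h1, (inv_inv _).symm⟩⟩
      rw [← h3]
      exact hmax u hu
  · -- case 2
    have h2 := htmax u1 ⟨hu1, h1⟩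
    have h3 := hrmin u1 ⟨hu1, h1⟩
    have hXu : Xh ε h y0 u1 - y0 = 4 * h u1 - 2 * (h t + h r) := by
      unfold Xh
      rw [h1]
      push_cast
      rw [hy0]
      ring
    have h4 : |Xh ε h y0 u1 - y0| ≤ 2 * (h t - h r) := by
      rw [hXu, abs_le]
      constructor <;> linarith
    have h5 : 0 < 2 * (h t - h r) := lt_of_lt_of_le hpos h4
    refine ⟨y0, 2 * (h t - h r), t, r, h5, ht, hr, hXt, hXr, fun u hu => (hmax u hu).trans h4,
      Or.inr ⟨ht', hr'⟩⟩

end

/-- PACKET DIH. -/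
theorem dih : DihStmt.{u} := by
  classical
  intro Γ _ ε h S D hS hfin
  obtain ⟨y0, H, t, r, hH, ht, hr, hXt, hXr, hmax, hcase⟩ := choice D S hS hfin
  let X : Γ → ℤ := Xh ε h y0
  have hXm : ∀ g u, X (g * u) = X g + (ε g : ℤ) * (X u - y0) := Xh_mul D y0
  have hXm' : ∀ g u, X (g * u) = 4 * h g + (ε g : ℤ) * X u := Xh_mul' D y0
  -- successor
  let τ : ℤˣ → Γ := fun e => if e = 1 then t else r
  have hτ1 : τ 1 = t := if_pos rfl
  have hτ2 : τ (-1) = r := if_neg (by decide)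
  have hετ : ∀ e, ε (τ e) = ε t := by
    intro e
    rcases Int.units_eq_one_or e with h1 | h1
    · rw [h1, hτ1]
    · rw [h1, hτ2]
      rcases hcase with ⟨h2, h3, _⟩ | ⟨h2, h3⟩ <;> rw [h2, h3]
  have hsq : ∀ e : ℤˣ, e * e = 1 := fun e => by
    rcases Int.units_eq_one_or e with h1 | h1 <;> rw [h1] <;> rfl
  let f : Γ → Γ := fun g => g * τ (ε g)
  let f' : Γ → Γ := fun g => g * (τ (ε g * ε t))⁻¹
  have hεf : ∀ g, ε (f g) = ε g * ε t := by
    intro g
    show ε (g * τ (ε g)) = _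
    rw [map_mul, hετ]
  have hεf' : ∀ g, ε (f' g) = ε g * ε t := by
    intro g
    show ε (g * (τ (ε g * ε t))⁻¹) = _
    rw [map_mul, eps_inv, hετ]
  have hleft : ∀ g, f' (f g) = g := by
    intro g
    show f g * (τ (ε (f g) * ε t))⁻¹ = g
    rw [hεf, mul_assoc (ε g), hsq, mul_one]
    show g * τ (ε g) * (τ (ε g))⁻¹ = g
    rw [mul_inv_cancel_right]
  have hright : ∀ g, f (f' g) = g := by
    intro g
    show f' g * τ (ε (f' g)) = g
    rw [hεf']
    show g * (τ (ε g * ε t))⁻¹ * τ (ε g * ε t) = g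
    rw [inv_mul_cancel_right]
  let ph : Equiv.Perm Γ := ⟨f, f', hleft, hright⟩
  have hph : ∀ g, ph g = g * τ (ε g) := fun g => rfl
  have hXph : ∀ g, X (ph g) = X g + H := by
    intro g
    rw [hph, hXm]
    rcases Int.units_eq_one_or (ε g) with h1 | h1
    · rw [h1, hτ1]
      have : X t - y0 = H := hXt
      rw [this]
      push_cast
      ring
    · rw [h1, hτ2]
      have : X r - y0 = -H := hXr
      rw [this]
      push_cast
      ring
  have hcomm : ∀ x, ε x = 1 → ∀ y, x * ph y = ph (x * y) := by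
    intro x hx y
    rw [hph, hph, map_mul, hx, one_mul, mul_assoc]
  have hstep : ∀ g, g⁻¹ * ph g ∈ S := by
    intro g
    rw [hph, inv_mul_cancel_left]
    rcases Int.units_eq_one_or (ε g) with h1 | h1
    · rw [h1, hτ1]; exact ht
    · rw [h1, hτ2]; exact hr
  have hnear : ∀ g, ∀ u ∈ S, |X (g * u) - X g| ≤ H := by
    intro g u hu
    have h1 : |X u - y0| ≤ H := hmax u hu
    have h2 : X (g * u) - X g = (ε g : ℤ) * (X u - y0) := by rw [hXm]; ring
    rw [h2, abs_mul]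
    rcases Int.units_eq_one_or (ε g) with h3 | h3
    · rw [h3]; simpa using h1
    · rw [h3]; simpa using h1
  have hinv1 : ∀ e : ℤˣ, e ≠ 1 → e = -1 := fun e he => (Int.units_eq_one_or e).resolve_left he
  -- transitivity
  have htr : ∀ g g', ∃ (x : Γ) (e k : ℤ), (e = 1 ∨ e = -1) ∧
      (∀ y, x * ph y = (ph ^ e) (x * y)) ∧ x * g = (ph ^ k) g' := by
    intro g g'
    by_cases hg : ε g = ε g'
    · refine ⟨g' * g⁻¹, 1, 0, Or.inl rfl, fun y => ?_, ?_⟩
      · rw [zpow_one]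
        apply hcomm
        rw [map_mul, eps_inv, hg, hsq]
      · rw [zpow_zero, inv_mul_cancel_right]
        rfl
    · have hg' : ε g * ε g' = -1 := by
        apply hinv1
        intro h1
        apply hg
        have h2 := congrArg (fun z => z * ε g') h1
        simp only [mul_assoc, hsq, mul_one, one_mul] at h2
        exact h2
      rcases hcase with ⟨h2, h3, h4⟩ | ⟨h2, h3⟩
      · -- case 1: reversed
        have hε : ε (g' * g⁻¹) = -1 := by rw [map_mul, eps_inv, mul_comm, hg']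
        refine ⟨g' * g⁻¹, -1, 0, Or.inr rfl, fun y => ?_, ?_⟩
        · have h5 : ph (g' * g⁻¹ * ph y) = g' * g⁻¹ * y := by
            rw [hph, map_mul, hε, hph y, map_mul, hετ, h2, mul_one]
            rcases Int.units_eq_one_or (ε y) with h6 | h6
            · rw [h6, hτ1, mul_one, hτ2, h4, ← mul_assoc, mul_inv_cancel_right]
            · rw [h6, hτ2, h4]
              have h7 : (-1 : ℤˣ) * -1 = 1 := rfl
              rw [h7, hτ1, ← mul_assoc, inv_mul_cancel_right]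
          have h6 : (ph ^ (-1 : ℤ)) = ph⁻¹ := zpow_neg_one ph
          rw [h6, ← h5]
          exact (ph.symm_apply_apply _).symm
        · rw [zpow_zero, inv_mul_cancel_right]
          rfl
      · refine ⟨ph g' * g⁻¹, 1, 1, Or.inl rfl, fun y => ?_, ?_⟩
        · rw [zpow_one]
          apply hcomm
          rw [map_mul, eps_inv]
          have h5 : ε (ph g') = ε g' * ε t := hεf g'
          rw [h5, h2, mul_right_comm, mul_comm (ε g'), hg']
          rfl
        · rw [zpow_one, inv_mul_cancel_right]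
  rcases hcase with ⟨h2, h3, h4⟩ | ⟨h2, h3⟩
  · refine dih_abs S X H ph t 1 hS hH hXph hstep (Xh_finite D y0 H) hnear htr (hcomm t h2)
      (fun y => ?_) (le_refl _) (by norm_num)
    have h5 : X t - y0 = H := hXt
    have h6 : X t = 4 * h t + (ε t : ℤ) * y0 := rfl
    rw [hXm', h2]
    rw [h2] at h6
    push_cast at h6 ⊢
    linarith
  · have hε : ε (t * r) = 1 := by rw [map_mul, h2, h3]; rfl
    refine dih_abs S X H ph (t * r) 2 hS hH hXph hstep (Xh_finite D y0 H) hnear htr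
      (hcomm _ hε) (fun y => ?_) (by norm_num) (le_refl _)
    have h5 : X t - y0 = H := hXt
    have h6 : X t = 4 * h t + (ε t : ℤ) * y0 := rfl
    have h7 : X r - y0 = -H := hXr
    have h8 : X r = 4 * h r + (ε r : ℤ) * y0 := rfl
    rw [hXm', hε, D.coc, h2]
    rw [h2] at h6
    rw [h3] at h8
    push_cast at h6 h8 ⊢
    linarith

end Pool.Agent.Helper24.NW
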