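import Pool.Agent.Helper61.NW.Goals2

/-! Project NW+ (MP_266b34_co), packet DIH, abstract part. -/

set_option autoImplicit false

namespace Pool.Agent.Helper24.NW

open Pool.Agent.Helper52.Wq2 Pool.Agent.Helper61.NW
open scoped Nat

universe u

lemma conj_pow {Γ : Type u} [Group Γ] (ph : Equiv.Perm Γ) (x : Γ) (e : ℤ)
    (hx : ∀ y, x * ph y = (ph ^ e) (x * y)) (k : ℤ) (y : Γ) :
    x * (ph ^ k) y = (ph ^ (e * k)) (x * y) := by
  have h1 : Equiv.mulLeft x * ph * (Equiv.mulLeft x)⁻¹ = ph ^ e := by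
    ext z
    have h2 := hx (x⁻¹ * z)
    rw [mul_inv_cancel_left] at h2
    rw [← h2]
    rfl
  have h3 : Equiv.mulLeft x * ph ^ k * (Equiv.mulLeft x)⁻¹ = ph ^ (e * k) := by
    rw [← conj_zpow, h1, zpow_mul]
  have h4 : (ph ^ (e * k)) (x * y) = (Equiv.mulLeft x * ph ^ k * (Equiv.mulLeft x)⁻¹) (x * y) := by
    rw [h3]
  rw [h4]
  show x * (ph ^ k) y = x * (ph ^ k) (x⁻¹ * (x * y))
  rw [inv_mul_cancel_left]

lemma conn_cay {Γ : Type u} [Group Γ] {S : Set Γ} (hS : IsGen S) : Conn (cay S) Set.univ := by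
  refine ⟨⟨1, trivial⟩, ?_⟩
  intro A _ hne hcl
  have h1 : ∀ t ∈ S, ∀ g : Γ, g ∈ A → g * t ∈ A := by
    intro t ht g hg
    exact hcl _ hg _ trivial (cay_adj_mul hS g ht)
  have h2 : ∀ y : Γ, y ∈ Subgroup.closure S → ∀ g : Γ, g ∈ A ↔ g * y ∈ A := by
    intro y hy
    induction hy using Subgroup.closure_induction with
    | mem t ht =>
      intro g
      refine ⟨h1 t ht g, fun h => ?_⟩
      have := h1 t⁻¹ (hS.2.1 t ht) _ h
      rwa [mul_inv_cancel_right] at this
    | one => intro g; rw [mul_one]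
    | mul x y _ _ hx hy => intro g; rw [hx g, hy (g * x), mul_assoc]
    | inv x _ hx => intro g; rw [hx (g * x⁻¹), inv_mul_cancel_right]
  obtain ⟨g, hg⟩ := hne
  intro x _
  have h3 := (h2 (g⁻¹ * x) (by rw [hS.1]; trivial) g).1 hg
  rwa [mul_inv_cancel_left] at h3

theorem dih_abs {Γ : Type u} [Group Γ] (S : Set Γ) (X : Γ → ℤ) (H : ℤ) (ph : Equiv.Perm Γ) (c : Γ)
    (d : ℕ) (hS : IsGen S) (hH : 0 < H) (hph : ∀ g, X (ph g) = X g + H)
    (hstep : ∀ g, g⁻¹ * ph g ∈ S) (hfin : {g | 0 ≤ X g ∧ X g < H}.Finite)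
    (hnear : ∀ g, ∀ t ∈ S, |X (g * t) - X g| ≤ H)
    (htr : ∀ g g', ∃ (x : Γ) (e k : ℤ), (e = 1 ∨ e = -1) ∧ (∀ y, x * ph y = (ph ^ e) (x * y)) ∧
      x * g = (ph ^ k) g')
    (hc : ∀ y, c * ph y = ph (c * y)) (hX : ∀ y, X (c * y) = X y + d * H) (hd1 : 1 ≤ d)
    (hd2 : d ≤ 2) : ∃ (n m : ℕ) (G : SimpleGraph (ℤ × Fin n)), m ≤ 2 * (n ! * (n * n)) ∧
    Lsys n m G ∧ Nonempty (cay S ≃g G) := by
  classical
  have hF : Finite {g | 0 ≤ X g ∧ X g < H} := hfin.to_subtype
  set n : ℕ := Nat.card {g | 0 ≤ X g ∧ X g < H} with hn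
  let ι : {g | 0 ≤ X g ∧ X g < H} ≃ Fin n := Finite.equivFin _
  let rr : Fin n → Γ := fun i => (ι.symm i).1
  have hrr : ∀ i, 0 ≤ X (rr i) ∧ X (rr i) < H := fun i => (ι.symm i).2
  have hrinj : ∀ i j, rr i = rr j → i = j := fun i j h => ι.symm.injective (Subtype.ext h)
  -- powers
  have hphi : ∀ g, X (ph⁻¹ g) = X g - H := by
    intro g
    have h1 := hph (ph⁻¹ g)
    have h2 : ph (ph⁻¹ g) = g := ph.apply_symm_apply g
    rw [h2] at h1
    omega
  have hpow : ∀ (k : ℤ) (g : Γ), X ((ph ^ k) g) = X g + k * H := by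
    intro k
    induction k using Int.induction_on with
    | zero => intro g; rw [zpow_zero]; simp
    | succ k ih =>
      intro g
      rw [zpow_add_one, Equiv.Perm.mul_apply, ih, hph]
      ring
    | pred k ih =>
      intro g
      rw [zpow_sub_one, Equiv.Perm.mul_apply, ih, hphi]
      ring
  have hadd : ∀ (a b : ℤ) (g : Γ), (ph ^ (a + b)) g = (ph ^ a) ((ph ^ b) g) := by
    intro a b g
    rw [zpow_add]
    rfl
  let P : ℤ × Fin n → Γ := fun p => (ph ^ p.1) (rr p.2)
  have hP : ∀ a i, P (a, i) = (ph ^ a) (rr i) := fun a i => rfl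
  have hPadd : ∀ a b i, (ph ^ a) (P (b, i)) = P (a + b, i) := by
    intro a b i
    rw [hP, hP, hadd]
  have hP0 : ∀ i, P (0, i) = rr i := by
    intro i
    rw [hP, zpow_zero]
    rfl
  have hXP : ∀ a i, X (P (a, i)) = X (rr i) + a * H := fun a i => hpow a _
  have hdiv : ∀ a i, X (P (a, i)) / H = a := by
    intro a i
    obtain ⟨h1, h2⟩ := hrr i
    rw [hXP, Int.add_mul_ediv_right _ _ hH.ne', Int.ediv_eq_zero_of_lt h1 h2, zero_add]
  have hinj : Function.Injective P := by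
    rintro ⟨a, i⟩ ⟨b, j⟩ hab
    have h1 : a = b := by rw [← hdiv a i, hab, hdiv]
    subst h1
    rw [hP, hP] at hab
    rw [hrinj i j ((ph ^ a).injective hab)]
  have hsurj : Function.Surjective P := by
    intro g
    have hd := Int.emod_add_mul_ediv (X g) H
    have hr0 := Int.emod_nonneg (X g) hH.ne'
    have hr1 := Int.emod_lt_of_pos (X g) hH
    have hx : X ((ph ^ (-(X g / H))) g) = X g % H := by
      rw [hpow]
      linarith
    let r : {g | 0 ≤ X g ∧ X g < H} := ⟨(ph ^ (-(X g / H))) g, by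
      show 0 ≤ X _ ∧ X _ < H
      rw [hx]
      exact ⟨hr0, hr1⟩⟩
    refine ⟨(X g / H, ι r), ?_⟩
    have h1 : rr (ι r) = (ph ^ (-(X g / H))) g := by
      show ((ι.symm (ι r)).1 : Γ) = _
      rw [Equiv.symm_apply_apply]
    rw [hP, h1, ← hadd]
    simp
  let E : ℤ × Fin n ≃ Γ := Equiv.ofBijective P ⟨hinj, hsurj⟩
  have hE : ∀ p, E p = P p := fun p => rfl
  -- the line map of an element
  have hline : ∀ (x : Γ) (e : ℤ), (e = 1 ∨ e = -1) → (∀ y, x * ph y = (ph ^ e) (x * y)) →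
      ∃ (τ : Equiv.Perm (Fin n)) (C : Fin n → ℤ), ∀ a i, x * P (a, i) = P (e * a + C i, τ i) := by
    intro x e he hx
    have h1 : ∀ i, ∃ p : ℤ × Fin n, x * rr i = P p := fun i => by
      obtain ⟨p, hp⟩ := hsurj (x * rr i)
      exact ⟨p, hp.symm⟩
    choose p hp using h1
    have h2 : ∀ a i, x * P (a, i) = P (e * a + (p i).1, (p i).2) := by
      intro a i
      rw [hP, conj_pow ph x e hx, hp, ← hPadd]
    have hτ : Function.Injective (fun i => (p i).2) := by
      intro i j hij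
      have hij' : (p i).2 = (p j).2 := hij
      -- x * P (a, i) = x * P (0, j) with e * a = (p j).1 - (p i).1
      have h3 := h2 (e * ((p j).1 - (p i).1)) i
      have h4 := h2 0 j
      have h5 : e * (e * ((p j).1 - (p i).1)) + (p i).1 = e * 0 + (p j).1 := by
        rcases he with rfl | rfl <;> ring
      rw [h5, hij', ← h4] at h3
      have h6 := mul_left_cancel h3
      exact congrArg Prod.snd (hinj h6)
    exact ⟨Equiv.ofBijective _ (Finite.injective_iff_bijective.1 hτ), fun i => (p i).1, h2⟩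
  -- period
  have hc1 : ∀ y, c * ph y = (ph ^ (1 : ℤ)) (c * y) := by
    intro y
    rw [zpow_one]
    exact hc y
  obtain ⟨T, C, hT⟩ := hline c 1 (Or.inl rfl) hc1
  have hTk : ∀ (k : ℕ) (i : Fin n), ∃ D : ℤ, ∀ a, c ^ k * P (a, i) = P (a + D, (T ^ k) i) := by
    intro k
    induction k with
    | zero => intro i; exact ⟨0, fun a => by rw [pow_zero, one_mul, add_zero, pow_zero]; rfl⟩
    | succ k ih =>
      intro i
      obtain ⟨D, hD⟩ := ih i
      refine ⟨D + C ((T ^ k) i), fun a => ?_⟩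
      rw [pow_succ', mul_assoc, hD, hT, pow_succ', Equiv.Perm.mul_apply]
      congr 2
      ring
  have hXk : ∀ (k : ℕ) (y : Γ), X (c ^ k * y) = X y + (k * d : ℤ) * H := by
    intro k
    induction k with
    | zero => intro y; simp
    | succ k ih =>
      intro y
      rw [pow_succ', mul_assoc, hX, ih]
      push_cast
      ring
  have hTN : T ^ (n !) = 1 := by
    have h1 := pow_card_eq_one (G := Equiv.Perm (Fin n)) (x := T)
    rwa [Fintype.card_perm, Fintype.card_fin] at h1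
  have hcN : ∀ a i, c ^ (n !) * P (a, i) = P (a + ((n ! * d : ℕ) : ℤ), i) := by
    intro a i
    obtain ⟨D, hD⟩ := hTk (n !) i
    have h1 := hD a
    rw [hTN] at h1
    have h2 := hXk (n !) (P (a, i))
    rw [h1, hXP] at h2
    have h3 : X (P (a, i)) = X (rr i) + a * H := hXP a i
    have h4 : D * H = ((n ! : ℤ) * d) * H := by
      have h5 : X (rr ((1 : Equiv.Perm (Fin n)) i)) = X (rr i) := rfl
      rw [h5, h3] at h2
      linarith
    have h6 : D = (n ! : ℤ) * d := mul_right_cancel₀ hH.ne' h4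
    rw [h1, h6]
    push_cast
    rfl
  -- adjacency is left invariant
  have hinv : ∀ x g g' : Γ, (cay S).Adj (x * g) (x * g') ↔ (cay S).Adj g g' := by
    intro x g g'
    rw [cay_adj hS, cay_adj hS, mul_inv_rev, mul_assoc, inv_mul_cancel_left]
  let G : SimpleGraph (ℤ × Fin n) := (cay S).comap E
  have hG : ∀ p q, G.Adj p q ↔ (cay S).Adj (P p) (P q) := fun p q => Iff.rfl
  have hnpos : 0 < n := by
    obtain ⟨⟨_, i⟩, _⟩ := hsurj 1
    exact i.pos
  refine ⟨n, n ! * d, G, ?_, ?_, ⟨⟨E.symm, ?_⟩⟩⟩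
  · have h1 : 1 ≤ n * n := Nat.mul_pos hnpos hnpos
    calc n ! * d ≤ n ! * 2 := Nat.mul_le_mul_left _ hd2
      _ = 2 * (n ! * 1) := by ring
      _ ≤ 2 * (n ! * (n * n)) := by gcongr
  · refine ⟨hnpos, Nat.mul_pos (Nat.factorial_pos n) hd1, ?_, ?_, ?_, ?_, ?_⟩
    · intro a j
      rw [hG, cay_adj hS]
      have h1 : P (a + 1, j) = ph (P (a, j)) := by
        have := hPadd 1 a j
        rw [zpow_one] at this
        rw [this, add_comm]
      rw [h1]
      exact hstep _
    · intro a b i j hab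
      rw [hG, cay_adj hS] at hab
      have h1 := hnear (P (a, i)) _ hab
      rw [mul_inv_cancel_left, hXP, hXP, abs_le] at h1
      obtain ⟨h2, h3⟩ := hrr i
      obtain ⟨h4, h5⟩ := hrr j
      rw [abs_le]
      constructor
      · by_contra hcon
        have h6 : a + 2 ≤ b := by omega
        have h7 : (a + 2) * H ≤ b * H := mul_le_mul_of_nonneg_right h6 hH.le
        have h8 : (a + 2) * H = a * H + 2 * H := by ring
        omega
      · by_contra hcon
        have h6 : b + 2 ≤ a := by omega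
        have h7 : (b + 2) * H ≤ a * H := mul_le_mul_of_nonneg_right h6 hH.le
        have h8 : (b + 2) * H = b * H + 2 * H := by ring
        omega
    · intro a b i j
      rw [hG, hG, ← hcN, ← hcN, hinv]
    · refine ⟨⟨(0, ⟨0, hnpos⟩), trivial⟩, ?_⟩
      intro A _ hne hcl p _
      have h1 := (conn_cay hS).2 (P '' A) (fun _ _ => trivial) (hne.image P) (by
        rintro _ ⟨q, hq, rfl⟩ y _ hadj
        obtain ⟨q', rfl⟩ := hsurj y
        exact ⟨q', hcl q hq q' trivial ((hG _ _).2 hadj), rfl⟩)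
      obtain ⟨q, hq, hqp⟩ := h1 (Set.mem_univ (P p))
      rw [← hinj hqp]
      exact hq
    · intro i j
      obtain ⟨x, e, k, he, hx, hk⟩ := htr (rr i) (rr j)
      obtain ⟨τ, C', hτ⟩ := hline x e he hx
      refine ⟨⟨(E.trans (Equiv.mulLeft x)).trans E.symm, ?_⟩, τ, e, C', he, ?_, ?_⟩
      · intro p q
        show (cay S).Adj (E (E.symm (x * E p))) (E (E.symm (x * E q))) ↔ (cay S).Adj (E p) (E q)
        rw [Equiv.apply_symm_apply, Equiv.apply_symm_apply, hinv]
      · have h1 := hτ 0 i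
        rw [hP0, hk] at h1
        have h2 : (ph ^ k) (rr j) = P (k, j) := rfl
        rw [h2] at h1
        exact (congrArg Prod.snd (hinj h1)).symm
      · intro a l
        show E.symm (x * E (a, l)) = (e * a + C' l, τ l)
        rw [Equiv.symm_apply_eq]
        exact hτ a l
  · intro g g'
    show (cay S).Adj (E (E.symm g)) (E (E.symm g')) ↔ (cay S).Adj g g'
    rw [Equiv.apply_symm_apply, Equiv.apply_symm_apply]

end Pool.Agent.Helper24.NW
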